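import Pool.Agent.Helper2.SV.GoalsC

/-!
# Packet SV-ICOA: all `EE i` nonempty, preparation
-/

set_option autoImplicit false

namespace Pool.Agent.Helper26.SV

open Pool.Agent.Helper2.SV

private lemma cf' {V : Type} {G : SimpleGraph V} (h : ClawFree G) {v a b c : V} (ha : G.Adj v a)
    (hb : G.Adj v b) (hc : G.Adj v c) (hab : a ≠ b) (hac : a ≠ c) (hbc : b ≠ c)
    (n1 : ¬ G.Adj a b) (n2 : ¬ G.Adj a c) : G.Adj b c := by
  rcases h v a b c ha hb hc hab hac hbc with h | h | h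
  exacts [absurd h n1, absurd h n2, h]

private lemma cases5 : ∀ i j : Fin 5, j = i + 1 ∨ j = i + 2 ∨ j = i + 3 ∨ j = i + 4 ∨ j = i := by
  decide

theorem goalICOA (hCH : G_CH) (hAJ : G_AJ) (hCI : G_CI) : G_ICOA := by
  intro V _ G w u d hcf hMF W F hV0 hE
  have hV2ne : ∀ i, (V2 G u d i).Nonempty := fun i => (hE i).imp (fun g hg => hg.1)
  have h4 := fun i => F.e4 i (Or.inl (hE i)) (hV2ne i) (hV2ne (i + 1))
  have hV2E : ∀ i, V2 G u d i = EE G u d i := fun i =>
    Set.Subset.antisymm (h4 i).1 (fun g hg => hg.1)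
  have step : ∀ y ∈ V0 G u d, ∀ i, ∀ g ∈ V2 G u d i, G.Adj y g →
      ∀ g' ∈ V2 G u d (i + 1), G.Adj y g' := fun y hy i g hg hyg g' hg' =>
    (h4 i).2.2 y hy g (Or.inl hg) hyg g' (Or.inr hg')
  have step' : ∀ y ∈ V0 G u d, ∀ i, (∀ g ∈ V2 G u d i, G.Adj y g) →
      ∀ g' ∈ V2 G u d (i + 1), G.Adj y g' := fun y hy i h g' hg' => by
    obtain ⟨g, hg⟩ := hV2ne i
    exact step y hy i g hg (h g hg) g' hg'
  have compl : ∀ y ∈ V0 G u d, ∀ i, ∀ g ∈ EE G u d i, G.Adj y g →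
      ∀ j, ∀ g' ∈ EE G u d j, G.Adj y g' := by
    intro y hy i g hg hyg
    have p1 : ∀ g' ∈ V2 G u d (i + 1), G.Adj y g' := step y hy i g hg.1 hyg
    have p2 : ∀ g' ∈ V2 G u d (i + 2), G.Adj y g' := by
      have := step' y hy _ p1
      rwa [show i + 1 + 1 = i + 2 by omega] at this
    have p3 : ∀ g' ∈ V2 G u d (i + 3), G.Adj y g' := by
      have := step' y hy _ p2
      rwa [show i + 2 + 1 = i + 3 by omega] at this
    have p4 : ∀ g' ∈ V2 G u d (i + 4), G.Adj y g' := by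
      have := step' y hy _ p3
      rwa [show i + 3 + 1 = i + 4 by omega] at this
    have p5 : ∀ g' ∈ V2 G u d i, G.Adj y g' := by
      have := step' y hy _ p4
      rwa [show i + 4 + 1 = i by omega] at this
    intro j g' hg'
    rcases cases5 i j with h | h | h | h | h
    · rw [h] at hg'; exact p1 g' hg'.1
    · rw [h] at hg'; exact p2 g' hg'.1
    · rw [h] at hg'; exact p3 g' hg'.1
    · rw [h] at hg'; exact p4 g' hg'.1
    · rw [h] at hg'; exact p5 g' hg'.1
  obtain ⟨-, hch⟩ := hCH V G w u d hcf hMF W F hV0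
  obtain ⟨⟨i, g, hg, j, g', hg', hne, hnadj⟩, hclq, hcompl⟩ := hch compl
  have off : ∀ {x : V}, x ∈ Mn G u → ∀ k, x ≠ d k := fun {x} hx k h => hx.2 (h ▸ W.spoke k)
  have no3 : ∀ m ∈ Mn G u, ¬ Three G d m := by
    intro m hm h3
    have st : ∀ k, G.Adj m (d k) → G.Adj m (d (k + 1)) := fun k hk =>
      (F.e3 k (hE k) m hm h3 (Or.inl hk)).2
    obtain ⟨k, hk, -, -⟩ := id h3
    have hk1 := st k hk
    have hk2 := st _ hk1
    have hk3 := st _ hk2
    have hk4 := st _ hk3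
    have all : ∀ l, G.Adj m (d l) := by
      intro l
      rcases cases5 k l with h | h | h | h | h
      · rw [h]; exact hk1
      · rw [h, show k + 2 = k + 1 + 1 by omega]; exact hk2
      · rw [h, show k + 3 = k + 1 + 1 + 1 by omega]; exact hk3
      · rw [h, show k + 4 = k + 1 + 1 + 1 + 1 by omega]; exact hk4
      · rw [h]; exact hk
    have notV2 : ∀ {l : Fin 5} {x : V}, x ∈ V2 G u d l → m ≠ x := by
      intro l x hx h
      have h2 : G.Adj x (d (l + 2)) := h ▸ all (l + 2)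
      rcases (hx.2 _).1 h2 with e | e <;> omega
    have adj : ∀ {l : Fin 5} {x : V}, x ∈ V2 G u d l → G.Adj m x := by
      intro l x hx
      exact F.common m x l hm hx.1 (notV2 hx) (all l) ((hx.2 l).2 (Or.inl rfl))
    have hmg := adj hg.1
    have hmg' := adj hg'.1
    have key : ∀ k : Fin 5, k ≠ i → k ≠ i + 1 → k ≠ j → k ≠ j + 1 → False := by
      intro k h1 h2 h3 h4
      have n1 : ¬ G.Adj g (d k) := fun h => by
        rcases (hg.1.2 k).1 h with e | e
        exacts [h1 e, h2 e]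
      have n2 : ¬ G.Adj g' (d k) := fun h => by
        rcases (hg'.1.2 k).1 h with e | e
        exacts [h3 e, h4 e]
      exact n2 (cf' hcf hmg hmg' (all k) hne (off hg.1.1 k) (off hg'.1.1 k) hnadj n1)
    have gi : G.Adj g (d i) := (hg.1.2 i).2 (Or.inl rfl)
    have gi1 : G.Adj g (d (i + 1)) := (hg.1.2 _).2 (Or.inr rfl)
    have gj : G.Adj g' (d j) := (hg'.1.2 j).2 (Or.inl rfl)
    have gj1 : G.Adj g' (d (j + 1)) := (hg'.1.2 _).2 (Or.inr rfl)
    rcases cases5 i j with h | h | h | h | h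
    · exact hnadj (F.common g g' (i + 1) hg.1.1 hg'.1.1 hne gi1 (h ▸ gj))
    · exact key (i + 4) (by omega) (by omega) (by omega) (by omega)
    · exact key (i + 2) (by omega) (by omega) (by omega) (by omega)
    · exact hnadj (F.common g g' i hg.1.1 hg'.1.1 hne gi
        (by have := gj1; rwa [h, show i + 4 + 1 = i by omega] at this))
    · exact hnadj (F.common g g' i hg.1.1 hg'.1.1 hne gi (h ▸ gj))
  have hM : ∀ v ∈ Mn G u, v ∈ V0 G u d ∨ ∃ i, v ∈ EE G u d i := by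
    intro v hv
    rcases F.types v hv with h | ⟨l, h⟩ | h
    · exact Or.inl h
    · exact Or.inr ⟨l, (hV2E l) ▸ h⟩
    · exact absurd h (no3 v hv)
  have adj0 : ∀ y ∈ V0 G u d, ∀ v ∈ Mn G u, y ≠ v → G.Adj y v := by
    intro y hy v hv hyv
    rcases hM v hv with h | ⟨l, h⟩
    · exact hclq y hy v h hyv
    · exact hcompl y hy l v h
  obtain ⟨hAJ1, hAJ2⟩ := hAJ V G u d hcf W F
  have hc' : ∃ c : Fin 5 → V, (∀ i, c i ∈ V2 G u d i) ∧ ∀ i, ¬ G.Adj (c i) (c (i + 2)) := by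
    rcases hMF.odd u with ⟨a, b, c, ha, hb, hc, hab, hac, hbc, nab, nac, nbc⟩ |
      ⟨c, hc, cinj, cn, -⟩
    · exfalso
      have ha0 : a ∉ V0 G u d := fun h => nab (adj0 a h b hb hab)
      have hb0 : b ∉ V0 G u d := fun h => nbc (adj0 b h c hc hbc)
      have hc0 : c ∉ V0 G u d := fun h => nac (adj0 c h a ha hac.symm).symm
      exact hAJ2 a b c ha hb hc ha0 hb0 hc0 hab hac hbc nab nac nbc
    · refine hAJ1 c hc (fun l h => ?_) cinj cn
      exact cn l (adj0 _ h _ (hc _) (fun he => absurd (cinj he) (by omega)))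
  obtain ⟨c, hc, hcn⟩ := hc'
  exact ⟨hV2E, hclq, hcompl, hM, ⟨c, hc, hcn⟩, (hCI V G u d hcf W F c hc hcn).2⟩

end Pool.Agent.Helper26.SV
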